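import Pool.Agent.Helper658.BallCover
import Pool.Agent.Helper658.CountCells

set_option autoImplicit false
open MeasureTheory

namespace Pool.Agent.Results.MP_9ad55e_co.PlanarCounterexample

/-- There is a covering of the plane by convex bodies of diameter at most 1 whose lower number of
members per unit area is at most 1.529, while for every covering of the plane by closed discs of
diameter 1 this number is at least 1.53. -/
theorem result :
    ∃ C : Set (Set (EuclideanSpace ℝ (Fin 2))),
      (∀ K ∈ C, IsCompact K ∧ Convex ℝ K ∧ (interior K).Nonempty ∧ Metric.diam K ≤ 1) ∧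
      ⋃₀ C = Set.univ ∧
      Filter.liminf
        (fun r : ℝ =>
          ((({K ∈ C | K ⊆ Metric.closedBall (0 : EuclideanSpace ℝ (Fin 2)) r}.encard : ℕ∞) :
            ENNReal)) / volume (Metric.closedBall (0 : EuclideanSpace ℝ (Fin 2)) r))
        Filter.atTop ≤ ENNReal.ofReal 1.529 ∧
      ∀ B : Set (Set (EuclideanSpace ℝ (Fin 2))),
        (∀ S ∈ B, ∃ x : EuclideanSpace ℝ (Fin 2), S = Metric.closedBall x (1/2 : ℝ)) →
        ⋃₀ B = Set.univ →
        ENNReal.ofReal 1.53 ≤ Filter.liminf
          (fun r : ℝ =>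
            ((({S ∈ B | S ⊆ Metric.closedBall (0 : EuclideanSpace ℝ (Fin 2)) r}.encard : ℕ∞) :
              ENNReal)) / volume (Metric.closedBall (0 : EuclideanSpace ℝ (Fin 2)) r))
          Filter.atTop := by
  refine ⟨Pool.Agent.Helper658.Tiling.C, ?_, ?_, Pool.Agent.Helper658.Tiling.C_liminf, ?_⟩
  · rintro K ⟨i, m, n, rfl⟩
    exact ⟨Pool.Agent.Helper658.Tiling.cell_compact i m n,
      Pool.Agent.Helper658.Tiling.cell_convex i m n,
      Pool.Agent.Helper658.Tiling.cell_interior i m n,
      Pool.Agent.Helper658.Tiling.cell_diam i m n⟩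
  · rw [Set.eq_univ_iff_forall]
    intro x
    obtain ⟨i, m, n, hx⟩ := Pool.Agent.Helper658.Tiling.cell_cover x
    exact ⟨_, ⟨i, m, n, rfl⟩, hx⟩
  · intro B hB hU
    exact Pool.Agent.Helper658.ball_cover_liminf B hB hU

end Pool.Agent.Results.MP_9ad55e_co.PlanarCounterexample
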